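import Pool.Agent.X83.GI.E

/-! For every `ε > 0` there is a bounded completely multiplicative function on the nonzero Gaussian
integers whose averages over the shifted squares `⌊N ^ (1 + ε)⌋ + Q_N` do not converge. -/

open scoped Topology
open Pool.Agent.X83.GI

namespace Pool.Agent.Results.MP_acc225_nt.NoConvergence

/-- The negated form of Q1: for every `ε > 0` some bounded completely multiplicative function has
divergent averages along the shifted squares. -/
theorem result :
    ∀ ε : ℝ, 0 < ε → ∃ f : GaussianInt → ℝ, CompletelyMultiplicative f ∧ BoundedOnNonzero f ∧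
      ¬ ∃ ℓ : ℝ, Filter.Tendsto (fun N : ℕ => average f (shiftedSquare ε N))
        Filter.atTop (𝓝 ℓ) :=
  main

end Pool.Agent.Results.MP_acc225_nt.NoConvergence
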